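import Pool.Agent.TH662.RR.Comb

set_option autoImplicit false

/-! RR: the measure-theoretic part. -/

open Finset MeasureTheory
open scoped ENNReal NNReal

namespace Pool.Agent.TH662.RR

/-- the admissible triples -/
def Val (K A : ℕ) (τ : Fin K × Fin K × Fin K) : Prop :=
  blk K A τ.1 = blk K A τ.2.1 ∧ τ.1 < τ.2.1 ∧ blk K A τ.2.1 < blk K A τ.2.2

/-- the ratio of the two differences of a triple, with parameter `x` -/
noncomputable def rat (K A : ℕ) (τ : Fin K × Fin K × Fin K) (x : ℝ) : ℝ :=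
  (bet K A x τ.2.2 - bet K A x τ.2.1) / (bet K A x τ.2.1 - bet K A x τ.1)

/-- slope -/
noncomputable def slo (K A : ℕ) (τ : Fin K × Fin K × Fin K) : ℝ :=
  2 * K * (((blk K A τ.2.2 : ℕ) : ℝ) - (blk K A τ.2.1 : ℕ)) / (((τ.2.1 : ℕ) : ℝ) - (τ.1 : ℕ))

/-- constant term -/
noncomputable def con (K A : ℕ) (τ : Fin K × Fin K × Fin K) : ℝ :=
  (((τ.2.2 : ℕ) : ℝ) - (τ.2.1 : ℕ)) / (((τ.2.1 : ℕ) : ℝ) - (τ.1 : ℕ))

theorem diff_eq {K A : ℕ} {τ : Fin K × Fin K × Fin K} (h : Val K A τ) (x : ℝ) :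
    bet K A x τ.2.1 - bet K A x τ.1 = ((τ.2.1 : ℕ) : ℝ) - (τ.1 : ℕ) := by
  rw [bet_eq, bet_eq, h.1]; ring

theorem diff_ge {K A : ℕ} {τ : Fin K × Fin K × Fin K} (h : Val K A τ) :
    1 ≤ ((τ.2.1 : ℕ) : ℝ) - (τ.1 : ℕ) := by
  have h1 : (τ.1 : ℕ) + 1 ≤ (τ.2.1 : ℕ) := h.2.1
  have h2 : ((τ.1 : ℕ) : ℝ) + 1 ≤ ((τ.2.1 : ℕ) : ℝ) := by exact_mod_cast h1
  linarith

theorem diff_le {K A : ℕ} (τ : Fin K × Fin K × Fin K) :
    ((τ.2.1 : ℕ) : ℝ) - (τ.1 : ℕ) ≤ K := by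
  have h1 : ((τ.2.1 : ℕ) : ℝ) ≤ K := by exact_mod_cast τ.2.1.2.le
  have h2 : (0 : ℝ) ≤ ((τ.1 : ℕ) : ℝ) := Nat.cast_nonneg _
  linarith

theorem rat_eq {K A : ℕ} {τ : Fin K × Fin K × Fin K} (h : Val K A τ) (x : ℝ) :
    rat K A τ x = slo K A τ * x + con K A τ := by
  have h0 := diff_ge h
  have h1 : ((τ.2.1 : ℕ) : ℝ) - (τ.1 : ℕ) ≠ 0 := by linarith
  unfold rat slo con
  rw [diff_eq h, bet_eq, bet_eq]
  field_simp
  ring

theorem slo_ge {K A : ℕ} {τ : Fin K × Fin K × Fin K} (h : Val K A τ) : 1 ≤ slo K A τ := by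
  have h0 := diff_ge h
  have h1 := diff_le (A := A) τ
  have h2 : (blk K A τ.2.1 : ℕ) + 1 ≤ blk K A τ.2.2 := h.2.2
  have h3 : ((blk K A τ.2.1 : ℕ) : ℝ) + 1 ≤ (blk K A τ.2.2 : ℕ) := by exact_mod_cast h2
  unfold slo
  rw [le_div_iff₀ (by linarith)]
  have hK : (0 : ℝ) ≤ K := Nat.cast_nonneg _
  nlinarith

theorem rat_ge {K A : ℕ} {τ : Fin K × Fin K × Fin K} (h : Val K A τ) {x : ℝ} (hx : 1 ≤ x) : x ≤ rat K A τ x := by
  have h0 := diff_ge h
  have h1 := diff_le (A := A) τ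
  have h2 := bet_lt_of_blk (x := x) hx h.2.2
  unfold rat
  rw [diff_eq h, le_div_iff₀ (by linarith)]
  have h3 : x * (((τ.2.1 : ℕ) : ℝ) - (τ.1 : ℕ)) ≤ x * K := mul_le_mul_of_nonneg_left h1 (by linarith)
  linarith

theorem rat_le {K A : ℕ} (hA : 0 < A) {τ : Fin K × Fin K × Fin K} (h : Val K A τ) {x : ℝ} (hx : 1 ≤ x) :
    rat K A τ x ≤ 2 * K * A * x := by
  have h0 := diff_ge h
  have h2 := bet_le hx hA τ.2.2
  have h3 := bet_nonneg (A := A) hx τ.2.1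
  unfold rat
  rw [diff_eq h, div_le_iff₀ (by linarith)]
  have h4 : (0 : ℝ) ≤ 2 * K * A * x := by positivity
  have h5 : 2 * K * A * x * 1 ≤ 2 * K * A * x * (((τ.2.1 : ℕ) : ℝ) - (τ.1 : ℕ)) := mul_le_mul_of_nonneg_left h0 h4
  nlinarith

/-- preimages under `rat` do not have larger measure -/
theorem vol_pre {K A : ℕ} {τ : Fin K × Fin K × Fin K} (h : Val K A τ) (S : Set ℝ) :
    volume ((fun x => slo K A τ * x + con K A τ) ⁻¹' S) ≤ volume S := by
  have h1 := slo_ge h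
  have e1 : (fun x => slo K A τ * x + con K A τ) ⁻¹' S =
      (fun x => slo K A τ * x) ⁻¹' ((fun y => y + con K A τ) ⁻¹' S) := rfl
  rw [e1, Real.volume_preimage_mul_left (by linarith), measure_preimage_add_right]
  have h2 : ENNReal.ofReal |(slo K A τ)⁻¹| ≤ 1 := by
    rw [← ENNReal.ofReal_one]
    apply ENNReal.ofReal_le_ofReal
    rw [abs_of_pos (by positivity)]
    exact inv_le_one_of_one_le₀ h1
  calc ENNReal.ofReal |(slo K A τ)⁻¹| * volume S ≤ 1 * volume S := by gcongr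
    _ = volume S := one_mul _

/-- covering of an interval by the preimages -/
theorem cover {K A : ℕ} (y z : ℝ) (S : Set ℝ) (hy : 1 ≤ y)
    (h : ∀ x : ℝ, y ≤ x → x ≤ z → ∃ τ, Val K A τ ∧ rat K A τ x ∈ S) :
    ENNReal.ofReal (z - y) ≤ ((K ^ 3 : ℕ) : ℝ≥0∞) * volume S := by
  classical
  have h1 : Set.Icc y z ⊆ ⋃ τ ∈ (univ.filter (fun τ : Fin K × Fin K × Fin K => Val K A τ)),
      (fun x => slo K A τ * x + con K A τ) ⁻¹' S := by
    intro x hx
    obtain ⟨τ, hτ, hS⟩ := h x hx.1 hx.2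
    simp only [Set.mem_iUnion]
    refine ⟨τ, by rw [mem_filter]; exact ⟨mem_univ _, hτ⟩, ?_⟩
    rw [Set.mem_preimage, ← rat_eq hτ]
    exact hS
  calc ENNReal.ofReal (z - y) = volume (Set.Icc y z) := (Real.volume_Icc).symm
    _ ≤ volume (⋃ τ ∈ (univ.filter (fun τ : Fin K × Fin K × Fin K => Val K A τ)),
      (fun x => slo K A τ * x + con K A τ) ⁻¹' S) := measure_mono h1
    _ ≤ ∑ τ ∈ (univ.filter (fun τ : Fin K × Fin K × Fin K => Val K A τ)),
      volume ((fun x => slo K A τ * x + con K A τ) ⁻¹' S) := measure_biUnion_finset_le _ _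
    _ ≤ ∑ τ ∈ (univ.filter (fun τ : Fin K × Fin K × Fin K => Val K A τ)), volume S := by
        apply Finset.sum_le_sum
        intro τ hτ
        exact vol_pre (mem_filter.1 hτ).2 S
    _ = ((univ.filter (fun τ : Fin K × Fin K × Fin K => Val K A τ)).card : ℝ≥0∞) * volume S := by
        rw [Finset.sum_const, nsmul_eq_mul]
    _ ≤ ((K ^ 3 : ℕ) : ℝ≥0∞) * volume S := by
        gcongr
        refine (Finset.card_filter_le _ _).trans ?_
        rw [Finset.card_univ, Fintype.card_prod, Fintype.card_prod, Fintype.card_fin]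
        apply le_of_eq; ring

/-- the inverses -/
theorem vol_inv (a b : ℝ) (ha : 0 < a) (S : Set ℝ) (hS : ∀ x ∈ S, a ≤ x) :
    volume ((fun x : ℝ => x⁻¹) '' S) ≤ ENNReal.ofReal ((a ^ 2)⁻¹) * volume S := by
  have h1 : LipschitzOnWith (Real.toNNReal ((a ^ 2)⁻¹)) (fun x : ℝ => x⁻¹) S := by
    apply LipschitzOnWith.of_dist_le_mul
    intro x hx y hy
    have hx1 := hS x hx
    have hy1 := hS y hy
    have hx0 : 0 < x := by linarith
    have hy0 : 0 < y := by linarith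
    rw [Real.coe_toNNReal _ (by positivity), Real.dist_eq, Real.dist_eq]
    have e1 : x⁻¹ - y⁻¹ = (y - x) * (x * y)⁻¹ := by field_simp
    rw [e1, abs_mul, abs_sub_comm, abs_of_pos (show 0 < (x * y)⁻¹ by positivity), mul_comm]
    apply mul_le_mul_of_nonneg_right _ (abs_nonneg _)
    apply inv_anti₀ (by positivity)
    rw [pow_two]
    exact mul_le_mul hx1 hy1 ha.le hx0.le
  have h2 := h1.hausdorffMeasure_image_le (d := 1) (by norm_num)
  rw [hausdorffMeasure_real, ENNReal.rpow_one] at h2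
  exact h2

/-- the density theorem -/
theorem dens {K A : ℕ} (hA : 0 < A) (hK : 0 < K) (S : Set ℝ)
    (h1 : ∀ x : ℝ, 1 ≤ x → ∃ τ, Val K A τ ∧ rat K A τ x ∈ S)
    (h2 : ∀ x : ℝ, 1 ≤ x → ∃ τ, Val K A τ ∧ (rat K A τ x)⁻¹ ∈ S) (T : ℝ) (hT : 0 < T) :
    ENNReal.ofReal ((64 * (K : ℝ) ^ 6 * A ^ 3)⁻¹ * T) ≤ volume (S ∩ Set.Icc 0 T) := by
  have hKr : (1 : ℝ) ≤ K := by exact_mod_cast hK
  have hAr : (1 : ℝ) ≤ A := by exact_mod_cast hA
  have hKA : (1 : ℝ) ≤ K * A := by nlinarith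
  have hK3 : ((K ^ 3 : ℕ) : ℝ≥0∞) = ENNReal.ofReal ((K : ℝ) ^ 3) := by
    rw [← Nat.cast_pow, ENNReal.ofReal_natCast]
  -- small T
  have hsmall : ∀ T : ℝ, 0 < T → T ≤ 1 → ENNReal.ofReal ((16 * (K : ℝ) ^ 5 * A ^ 2)⁻¹ * T) ≤
      volume (S ∩ Set.Icc 0 T) := by
    intro T hT hT1
    set Y := T⁻¹ with hY
    have hY1 : 1 ≤ Y := one_le_inv_iff₀.2 ⟨hT, hT1⟩
    have hY0 : 0 < Y := by linarith
    have hYT : Y⁻¹ = T := inv_inv T
    set b := 4 * K * A * Y with hb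
    have hb0 : 0 < b := by positivity
    have h3 := cover (K := K) (A := A) Y (2 * Y) ((fun x : ℝ => x⁻¹) '' (S ∩ Set.Icc b⁻¹ T)) hY1 (by
      intro x hx1 hx2
      have hx : 1 ≤ x := hY1.trans hx1
      obtain ⟨τ, hτ, hS⟩ := h2 x hx
      refine ⟨τ, hτ, ?_⟩
      have g1 := rat_ge hτ hx
      have g2 := rat_le hA hτ hx
      have g3 : rat K A τ x ≤ b := by
        have : 2 * K * A * x ≤ 2 * K * A * (2 * Y) := mul_le_mul_of_nonneg_left hx2 (by positivity)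
        rw [hb]; linarith
      have g4 : 0 < rat K A τ x := by linarith
      refine ⟨(rat K A τ x)⁻¹, ⟨hS, ?_, ?_⟩, inv_inv _⟩
      · exact inv_anti₀ g4 g3
      · rw [← hYT]
        exact inv_anti₀ hY0 (hx1.trans g1))
    have h4 := vol_inv b⁻¹ 0 (by positivity) (S ∩ Set.Icc b⁻¹ T) (fun x hx => hx.2.1)
    have h5 : volume (S ∩ Set.Icc b⁻¹ T) ≤ volume (S ∩ Set.Icc 0 T) := by
      apply measure_mono
      rintro x ⟨hx1, hx2, hx3⟩
      refine ⟨hx1, ?_, hx3⟩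
      exact (by positivity : (0 : ℝ) ≤ b⁻¹).trans hx2
    have e1 : (b⁻¹ ^ 2)⁻¹ = b ^ 2 := by rw [inv_pow, inv_inv]
    rw [e1] at h4
    have h6 : ENNReal.ofReal Y ≤ ENNReal.ofReal ((K : ℝ) ^ 3 * b ^ 2) * volume (S ∩ Set.Icc 0 T) := by
      have e2 : 2 * Y - Y = Y := by ring
      rw [e2, hK3] at h3
      refine h3.trans ?_
      rw [ENNReal.ofReal_mul (by positivity), mul_assoc]
      gcongr
      exact h4.trans (by gcongr)
    have h7 : ENNReal.ofReal (((K : ℝ) ^ 3 * b ^ 2)⁻¹ * Y) ≤ volume (S ∩ Set.Icc 0 T) := by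
      have hpos : (0 : ℝ) < (K : ℝ) ^ 3 * b ^ 2 := by positivity
      rw [ENNReal.ofReal_mul (by positivity), ENNReal.ofReal_inv_of_pos hpos]
      rw [mul_comm, ← div_eq_mul_inv]
      apply ENNReal.div_le_of_le_mul
      rw [mul_comm]
      exact h6
    refine le_trans (ENNReal.ofReal_le_ofReal ?_) h7
    rw [hb]
    apply le_of_eq
    rw [← hYT]
    field_simp
    ring
  by_cases hT1 : T ≤ 1
  · refine le_trans (ENNReal.ofReal_le_ofReal ?_) (hsmall T hT hT1)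
    apply mul_le_mul_of_nonneg_right _ hT.le
    apply inv_anti₀ (by positivity)
    have g1 : (K : ℝ) ^ 5 * 1 ≤ (K : ℝ) ^ 5 * K := mul_le_mul_of_nonneg_left hKr (by positivity)
    have g2 : (A : ℝ) ^ 2 * 1 ≤ (A : ℝ) ^ 2 * A := mul_le_mul_of_nonneg_left hAr (by positivity)
    have g3 : (K : ℝ) ^ 5 * (A : ℝ) ^ 2 ≤ (K : ℝ) ^ 6 * (A : ℝ) ^ 3 := by
      apply mul_le_mul _ _ (by positivity) (by positivity)
      · rw [pow_succ _ 5]; linarith
      · rw [pow_succ _ 2]; linarith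
    nlinarith [show (0 : ℝ) < (K : ℝ) ^ 6 * (A : ℝ) ^ 3 by positivity]
  · push Not at hT1
    by_cases hT2 : T ≤ 4 * K * A
    · -- monotonicity
      have g1 := hsmall 1 one_pos le_rfl
      have g2 : volume (S ∩ Set.Icc 0 1) ≤ volume (S ∩ Set.Icc 0 T) := by
        apply measure_mono
        rintro x ⟨hx1, hx2, hx3⟩
        exact ⟨hx1, hx2, hx3.trans hT1.le⟩
      refine le_trans (ENNReal.ofReal_le_ofReal ?_) (g1.trans g2)
      rw [mul_one]
      have g3 : (64 * (K : ℝ) ^ 6 * A ^ 3)⁻¹ * T ≤ (64 * (K : ℝ) ^ 6 * A ^ 3)⁻¹ * (4 * K * A) :=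
        mul_le_mul_of_nonneg_left hT2 (by positivity)
      refine g3.trans (le_of_eq ?_)
      field_simp
      ring
    · push Not at hT2
      set Y := T / (2 * K * A) with hY
      have hY2 : 2 ≤ Y := by
        rw [hY, le_div_iff₀ (by positivity)]
        linarith
      have h3 := cover (K := K) (A := A) 1 Y (S ∩ Set.Icc 0 T) le_rfl (by
        intro x hx1 hx2
        obtain ⟨τ, hτ, hS⟩ := h1 x hx1
        refine ⟨τ, hτ, hS, ?_, ?_⟩
        · have := rat_ge hτ hx1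
          linarith
        · refine (rat_le hA hτ hx1).trans ?_
          have g1 : 2 * K * A * x ≤ 2 * K * A * Y := mul_le_mul_of_nonneg_left hx2 (by positivity)
          refine g1.trans (le_of_eq ?_)
          rw [hY]; field_simp)
      rw [hK3] at h3
      have h7 : ENNReal.ofReal (((K : ℝ) ^ 3)⁻¹ * (Y - 1)) ≤ volume (S ∩ Set.Icc 0 T) := by
        have hpos : (0 : ℝ) < (K : ℝ) ^ 3 := by positivity
        rw [ENNReal.ofReal_mul (by positivity), ENNReal.ofReal_inv_of_pos hpos]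
        rw [mul_comm, ← div_eq_mul_inv]
        apply ENNReal.div_le_of_le_mul
        rw [mul_comm]
        exact h3
      refine le_trans (ENNReal.ofReal_le_ofReal ?_) h7
      have g1 : Y / 2 ≤ Y - 1 := by linarith
      have g2 : ((K : ℝ) ^ 3)⁻¹ * (Y / 2) ≤ ((K : ℝ) ^ 3)⁻¹ * (Y - 1) :=
        mul_le_mul_of_nonneg_left g1 (by positivity)
      refine le_trans ?_ g2
      have g3 : ((K : ℝ) ^ 3)⁻¹ * (Y / 2) = (4 * (K : ℝ) ^ 4 * A)⁻¹ * T := by
        rw [hY]; field_simp; ring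
      rw [g3]
      apply mul_le_mul_of_nonneg_right _ hT.le
      apply inv_anti₀ (by positivity)
      have g4 : (1 : ℝ) ≤ (K : ℝ) ^ 2 := one_le_pow₀ hKr
      have g5 : (1 : ℝ) ≤ (A : ℝ) ^ 2 := one_le_pow₀ hAr
      have g6 : (4 * (K : ℝ) ^ 4 * A) * 1 ≤ (4 * (K : ℝ) ^ 4 * A) * (16 * ((K : ℝ) ^ 2 * (A : ℝ) ^ 2)) := by
        apply mul_le_mul_of_nonneg_left _ (by positivity)
        nlinarith
      calc 4 * (K : ℝ) ^ 4 * A = (4 * (K : ℝ) ^ 4 * A) * 1 := (mul_one _).symm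
        _ ≤ _ := g6
        _ = 64 * (K : ℝ) ^ 6 * A ^ 3 := by ring

end Pool.Agent.TH662.RR
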