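import Pool.Agent.TH662.RR.Core
import Pool.Agent.TH662.RR.Dens
import Pool.Agent.H362R2.RQ.Fin

set_option autoImplicit false

/-! RR: the limit points of the ratios of consecutive record gaps have positive lower density. -/

open Finset Filter Topology MeasureTheory
open scoped ENNReal

namespace Pool.Agent.TH662.RR

open Pool.Agent.H362R2.RQ
open Pool.Agent.H256R2.SC (ff)
open Pool.Agent.H312R2.RG.C3 (ff_tendsto ff_lower ff_upper ff_small ff_slow count_next)

/-- `g n = p (n+1) - p n` -/
noncomputable def gap (n : ℕ) : ℝ := (Nat.nth Nat.Prime (n + 1) : ℝ) - Nat.nth Nat.Prime n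

/-- the limit points of the ratios `g (n+1) / g n` along the `n` for which the larger of the two gaps is at least
`c ff (p n)` and the three primes are `≡ a (mod q)` -/
def RatLim (c : ℝ) (q a : ℕ) : Set ℝ :=
  {x | ∀ ε : ℝ, 0 < ε → ∃ᶠ n : ℕ in atTop,
    (∀ i ≤ 2, Nat.nth Nat.Prime (n + i) ≡ a [MOD q]) ∧
    c * ff (Nat.nth Nat.Prime n) ≤ max (gap n) (gap (n + 1)) ∧ |gap (n + 1) / gap n - x| < ε}

theorem rat_of_lim (c : ℝ) (q a : ℕ) (v : Fin 2 → ℝ) (hv : v ∈ Lim 2 q a) (hv0 : 0 < v 0) (_hv1 : 0 < v 1)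
    (hc : 0 < c) (hmax : 2 * c ≤ max (v 0) (v 1)) : v 1 / v 0 ∈ RatLim c q a := by
  intro ε hε
  have hcont : ContinuousAt (fun p : ℝ × ℝ => p.2 / p.1) (v 0, v 1) :=
    ContinuousAt.div continuousAt_snd continuousAt_fst hv0.ne'
  obtain ⟨δ, hδ, hδ2⟩ := Metric.continuousAt_iff.1 hcont ε hε
  have hff : ∀ᶠ n : ℕ in atTop, 0 < ff (Nat.nth Nat.Prime n) := by
    have h1 : Tendsto (fun n : ℕ => ((Nat.nth Nat.Prime n : ℕ) : ℝ)) atTop atTop :=
      tendsto_natCast_atTop_atTop.comp (Nat.nth_strictMono Nat.infinite_setOfPred_prime).tendsto_atTop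
    exact (h1.eventually (ff_tendsto.eventually_gt_atTop 0))
  have h1 := (hv (min δ c) (by positivity)).and_eventually hff
  refine h1.mono ?_
  rintro n ⟨⟨hcl, hg⟩, hF⟩
  set F := ff (Nat.nth Nat.Prime n) with hFdef
  have g0 : |gap n / F - v 0| < min δ c := by
    have := hg 0
    simpa [gap] using this
  have g1 : |gap (n + 1) / F - v 1| < min δ c := by
    have := hg 1
    simpa [gap] using this
  refine ⟨?_, ?_, ?_⟩
  · intro i hi
    have := hcl ⟨i, by omega⟩
    simpa using this
  · rcases le_max_iff.1 hmax with h2 | h2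
    · refine le_trans ?_ (le_max_left _ _)
      have h3 := (abs_lt.1 (g0.trans_le (min_le_right _ _))).1
      have h4 : c ≤ gap n / F := by linarith
      rwa [le_div_iff₀ hF] at h4
    · refine le_trans ?_ (le_max_right _ _)
      have h3 := (abs_lt.1 (g1.trans_le (min_le_right _ _))).1
      have h4 : c ≤ gap (n + 1) / F := by linarith
      rwa [le_div_iff₀ hF] at h4
  · have h2 : dist (gap n / F, gap (n + 1) / F) (v 0, v 1) < δ := by
      rw [Prod.dist_eq, max_lt_iff]
      exact ⟨g0.trans_le (min_le_left _ _), g1.trans_le (min_le_left _ _)⟩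
    have h3 := hδ2 h2
    rw [Real.dist_eq] at h3
    have e1 : gap (n + 1) / F / (gap n / F) = gap (n + 1) / gap n := by
      rw [div_div_div_cancel_right₀ hF.ne']
    simp only at h3
    rwa [e1] at h3

/-- for all `x ≥ 1` some `rat τ x` is a limit point, and some `(rat τ x)⁻¹` is -/
theorem rat_mem (h : StRQ) : ∃ K A : ℕ, 0 < A ∧ 0 < K ∧ ∃ c : ℝ, 0 < c ∧
    ∀ q a : ℕ, Squarefree q → a.Coprime q → ∀ x : ℝ, 1 ≤ x →
      (∃ τ, Val K A τ ∧ rat K A τ x ∈ RatLim c q a) ∧ (∃ τ, Val K A τ ∧ (rat K A τ x)⁻¹ ∈ RatLim c q a) := by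
  classical
  obtain ⟨η, hη, hsel⟩ := sel h 2
  obtain ⟨A, hA, hA2⟩ : ∃ A : ℕ, 0 < A ∧ 2 ≤ η * A := by
    obtain ⟨A0, hA0⟩ := exists_nat_ge (2 / η)
    refine ⟨A0 + 1, by omega, ?_⟩
    rw [div_le_iff₀ hη] at hA0
    push_cast
    nlinarith
  have hAA : 0 < A * A := Nat.mul_pos hA hA
  obtain ⟨K, hMK, c, hc, hmain⟩ := hsel (A * A) hAA
  have hK : 0 < K := by omega
  have hKr : (0 : ℝ) < K := by exact_mod_cast hK
  have hAr : (0 : ℝ) < A := by exact_mod_cast hA
  refine ⟨K, A, hA, hK, c / (4 * A), by positivity, ?_⟩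
  intro q a hq ha x hx
  have hx0 : 0 < x := by linarith
  set Λ : ℝ := 2 * K * x * A with hΛ
  have hΛ0 : 0 < Λ := by positivity
  -- the density condition on J
  have hJ : ∀ J : Finset (Fin K), η * (A * A : ℕ) ≤ (J.image (cmod K (A * A) hAA)).card →
      2 * A ≤ (J.image (fun k : Fin K => (k : ℕ) % (A * A))).card := by
    intro J hJ
    have e1 : (J.image (fun k : Fin K => (k : ℕ) % (A * A))) = (J.image (cmod K (A * A) hAA)).image
        (fun d : Fin (A * A) => (d : ℕ)) := by
      rw [Finset.image_image]; rfl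
    rw [e1, Finset.card_image_of_injective _ Fin.val_injective]
    have h1 : (2 : ℝ) * A ≤ η * (A * A : ℕ) := by
      push_cast
      have : 2 * (A : ℝ) ≤ η * A * A := mul_le_mul_of_nonneg_right hA2 hAr.le
      linarith
    have h2 : ((2 * A : ℕ) : ℝ) ≤ ((J.image (cmod K (A * A) hAA)).card : ℝ) := by
      push_cast
      exact h1.trans hJ
    exact_mod_cast h2
  have hinj := bet_inj (K := K) (A := A) hx hK
  constructor
  · -- the first orientation
    obtain ⟨κ, hκT, hκL⟩ := hmain q a hq ha (fun k => bet K A x k / Λ)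
      (fun k l hkl => hinj (by
        have hkl' : bet K A x k / Λ = bet K A x l / Λ := hkl
        rwa [div_left_inj' hΛ0.ne'] at hkl'))
      (fun k => ⟨div_nonneg (bet_nonneg hx k) hΛ0.le, (div_le_one hΛ0).2 (bet_le hx hA k)⟩)
      {κ | blk K A (κ 0) = blk K A (κ 1) ∧ κ 0 < κ 1 ∧ blk K A (κ 1) < blk K A (κ 2)} (by
        intro J hJc
        obtain ⟨u, v, w, hu, hv, hw, h1, h2, h3, h4, h5⟩ := triple K A hA x hx hK J (hJ J hJc)
        refine ⟨![u, v, w], ⟨h1, h2, h3⟩, ?_, ?_, ?_⟩
        · intro i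
          fin_cases i
          · exact hu
          · exact hv
          · exact hw
        · intro i
          fin_cases i
          · exact div_lt_div_of_pos_right ((bet_lt_iff hx hK).2 (Or.inr ⟨h1, h2⟩)) hΛ0
          · exact div_lt_div_of_pos_right ((bet_lt_iff hx hK).2 (Or.inl h3)) hΛ0
        · intro i k hk
          fin_cases i
          · rcases h4 k hk with h6 | h6
            · exact Or.inl (div_le_div_of_nonneg_right h6 hΛ0.le)
            · exact Or.inr (div_le_div_of_nonneg_right h6 hΛ0.le)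
          · rcases h5 k hk with h6 | h6
            · exact Or.inl (div_le_div_of_nonneg_right h6 hΛ0.le)
            · exact Or.inr (div_le_div_of_nonneg_right h6 hΛ0.le))
    have hval : Val K A (κ 0, κ 1, κ 2) := hκT
    refine ⟨(κ 0, κ 1, κ 2), hval, ?_⟩
    have d0 : 0 < bet K A x (κ 1) - bet K A x (κ 0) := by
      have := diff_eq hval x
      have h2 := diff_ge hval
      simp only at this h2
      linarith
    have d1 : K * x ≤ bet K A x (κ 2) - bet K A x (κ 1) := by
      have := bet_lt_of_blk (x := x) hx hval.2.2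
      simp only at this
      linarith
    have d1' : 0 < bet K A x (κ 2) - bet K A x (κ 1) := lt_of_lt_of_le (by positivity) d1
    have hlim := rat_of_lim (c / (4 * A)) q a _ hκL
      (by
        show 0 < c * (bet K A x (κ 1) / Λ - bet K A x (κ 0) / Λ)
        rw [← sub_div]; positivity)
      (by
        show 0 < c * (bet K A x (κ 2) / Λ - bet K A x (κ 1) / Λ)
        rw [← sub_div]; positivity)
      (by positivity)
      (by
        refine le_trans ?_ (le_max_right _ _)
        show 2 * (c / (4 * A)) ≤ c * (bet K A x (κ 2) / Λ - bet K A x (κ 1) / Λ)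
        rw [← sub_div]
        have e1 : 2 * (c / (4 * A)) = c * (K * x / Λ) := by rw [hΛ]; field_simp; ring
        rw [e1]
        gcongr)
    have e2 : rat K A (κ 0, κ 1, κ 2) x =
        c * (bet K A x (κ 2) / Λ - bet K A x (κ 1) / Λ) / (c * (bet K A x (κ 1) / Λ - bet K A x (κ 0) / Λ)) := by
      unfold rat
      simp only
      rw [← sub_div, ← sub_div]
      field_simp
    rw [e2]
    exact hlim
  · -- the second orientation
    obtain ⟨κ, hκT, hκL⟩ := hmain q a hq ha (fun k => 1 - bet K A x k / Λ)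
      (fun k l hkl => hinj (by
        have hkl' : 1 - bet K A x k / Λ = 1 - bet K A x l / Λ := hkl
        have hkl'' : bet K A x k / Λ = bet K A x l / Λ := by linarith
        rwa [div_left_inj' hΛ0.ne'] at hkl''))
      (fun k => by
        have h1 := div_nonneg (bet_nonneg (A := A) hx k) hΛ0.le
        have h2 := (div_le_one hΛ0).2 (bet_le hx hA k)
        constructor <;> linarith)
      {κ | blk K A (κ 2) = blk K A (κ 1) ∧ κ 2 < κ 1 ∧ blk K A (κ 1) < blk K A (κ 0)} (by
        intro J hJc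
        obtain ⟨u, v, w, hu, hv, hw, h1, h2, h3, h4, h5⟩ := triple K A hA x hx hK J (hJ J hJc)
        refine ⟨![w, v, u], ⟨h1, h2, h3⟩, ?_, ?_, ?_⟩
        · intro i
          fin_cases i
          · exact hw
          · exact hv
          · exact hu
        · intro i
          fin_cases i
          · have := div_lt_div_of_pos_right ((bet_lt_iff hx hK).2 (Or.inl h3 : _ ∨ (blk K A v = blk K A w ∧ v < w))) hΛ0
            show 1 - bet K A x w / Λ < 1 - bet K A x v / Λ
            linarith
          · have := div_lt_div_of_pos_right ((bet_lt_iff (x := x) hx hK).2 (Or.inr ⟨h1, h2⟩)) hΛ0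
            show 1 - bet K A x v / Λ < 1 - bet K A x u / Λ
            linarith
        · intro i k hk
          fin_cases i
          · show 1 - bet K A x k / Λ ≤ 1 - bet K A x w / Λ ∨ 1 - bet K A x v / Λ ≤ 1 - bet K A x k / Λ
            rcases h5 k hk with h6 | h6
            · right
              have := div_le_div_of_nonneg_right h6 hΛ0.le
              linarith
            · left
              have := div_le_div_of_nonneg_right h6 hΛ0.le
              linarith
          · show 1 - bet K A x k / Λ ≤ 1 - bet K A x v / Λ ∨ 1 - bet K A x u / Λ ≤ 1 - bet K A x k / Λ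
            rcases h4 k hk with h6 | h6
            · right
              have := div_le_div_of_nonneg_right h6 hΛ0.le
              linarith
            · left
              have := div_le_div_of_nonneg_right h6 hΛ0.le
              linarith)
    have hval : Val K A (κ 2, κ 1, κ 0) := hκT
    refine ⟨(κ 2, κ 1, κ 0), hval, ?_⟩
    have d0 : 0 < bet K A x (κ 1) - bet K A x (κ 2) := by
      have := diff_eq hval x
      have h2 := diff_ge hval
      simp only at this h2
      linarith
    have d1 : K * x ≤ bet K A x (κ 0) - bet K A x (κ 1) := by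
      have := bet_lt_of_blk (x := x) hx hval.2.2
      simp only at this
      linarith
    have d1' : 0 < bet K A x (κ 0) - bet K A x (κ 1) := lt_of_lt_of_le (by positivity) d1
    have q0 : (1 - bet K A x (κ 1) / Λ) - (1 - bet K A x (κ 0) / Λ) = (bet K A x (κ 0) - bet K A x (κ 1)) / Λ := by
      rw [sub_div]; ring
    have q1 : (1 - bet K A x (κ 2) / Λ) - (1 - bet K A x (κ 1) / Λ) = (bet K A x (κ 1) - bet K A x (κ 2)) / Λ := by
      rw [sub_div]; ring
    have hlim := rat_of_lim (c / (4 * A)) q a _ hκL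
      (by
        show 0 < c * ((1 - bet K A x (κ 1) / Λ) - (1 - bet K A x (κ 0) / Λ))
        rw [q0]; positivity)
      (by
        show 0 < c * ((1 - bet K A x (κ 2) / Λ) - (1 - bet K A x (κ 1) / Λ))
        rw [q1]; positivity)
      (by positivity)
      (by
        refine le_trans ?_ (le_max_left _ _)
        show 2 * (c / (4 * A)) ≤ c * ((1 - bet K A x (κ 1) / Λ) - (1 - bet K A x (κ 0) / Λ))
        rw [q0]
        have e1 : 2 * (c / (4 * A)) = c * (K * x / Λ) := by rw [hΛ]; field_simp; ring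
        rw [e1]
        gcongr)
    have e2 : (rat K A (κ 2, κ 1, κ 0) x)⁻¹ =
        c * ((1 - bet K A x (κ 2) / Λ) - (1 - bet K A x (κ 1) / Λ)) /
          (c * ((1 - bet K A x (κ 1) / Λ) - (1 - bet K A x (κ 0) / Λ))) := by
      unfold rat
      simp only
      rw [q0, q1, inv_div]
      field_simp
    rw [e2]
    exact hlim

/-- the main theorem -/
theorem main_of (h : StRQ) : ∃ c : ℝ, 0 < c ∧ ∀ q a : ℕ, Squarefree q → a.Coprime q → ∀ T : ℝ, 0 < T →
    ENNReal.ofReal (c * T) ≤ volume (RatLim c q a ∩ Set.Icc 0 T) ∧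
    ENNReal.ofReal (c * T) ≤ volume ({x : ℝ | x⁻¹ ∈ RatLim c q a} ∩ Set.Icc 0 T) := by
  obtain ⟨K, A, hA, hK, c, hc, hmem⟩ := rat_mem h
  have hKr : (0 : ℝ) < K := by exact_mod_cast hK
  have hAr : (0 : ℝ) < A := by exact_mod_cast hA
  set c1 := min c ((64 * (K : ℝ) ^ 6 * A ^ 3)⁻¹) with hc1
  have hc1pos : 0 < c1 := by positivity
  have hsub : ∀ q a : ℕ, RatLim c q a ⊆ RatLim c1 q a := by
    intro q a x hx ε hε
    have hff : ∀ᶠ n : ℕ in atTop, 0 < ff (Nat.nth Nat.Prime n) := by
      have h1 : Tendsto (fun n : ℕ => ((Nat.nth Nat.Prime n : ℕ) : ℝ)) atTop atTop :=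
        tendsto_natCast_atTop_atTop.comp (Nat.nth_strictMono Nat.infinite_setOfPred_prime).tendsto_atTop
      exact (h1.eventually (ff_tendsto.eventually_gt_atTop 0))
    refine ((hx ε hε).and_eventually hff).mono ?_
    rintro n ⟨⟨h1, h2, h3⟩, h4⟩
    refine ⟨h1, le_trans ?_ h2, h3⟩
    exact mul_le_mul_of_nonneg_right (min_le_left _ _) h4.le
  refine ⟨c1, hc1pos, ?_⟩
  intro q a hq ha T hT
  have hle : ENNReal.ofReal (c1 * T) ≤ ENNReal.ofReal ((64 * (K : ℝ) ^ 6 * A ^ 3)⁻¹ * T) :=
    ENNReal.ofReal_le_ofReal (mul_le_mul_of_nonneg_right (min_le_right _ _) hT.le)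
  constructor
  · refine hle.trans ?_
    refine (dens hA hK (RatLim c1 q a) (fun x hx => ?_) (fun x hx => ?_) T hT)
    · obtain ⟨τ, h1, h2⟩ := (hmem q a hq ha x hx).1
      exact ⟨τ, h1, hsub q a h2⟩
    · obtain ⟨τ, h1, h2⟩ := (hmem q a hq ha x hx).2
      exact ⟨τ, h1, hsub q a h2⟩
  · refine hle.trans ?_
    refine (dens hA hK {x : ℝ | x⁻¹ ∈ RatLim c1 q a} (fun x hx => ?_) (fun x hx => ?_) T hT)
    · obtain ⟨τ, h1, h2⟩ := (hmem q a hq ha x hx).2
      exact ⟨τ, h1, hsub q a h2⟩
    · obtain ⟨τ, h1, h2⟩ := (hmem q a hq ha x hx).1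
      refine ⟨τ, h1, ?_⟩
      show ((rat K A τ x)⁻¹)⁻¹ ∈ RatLim c1 q a
      rw [inv_inv]
      exact hsub q a h2

end Pool.Agent.TH662.RR
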