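import Mathlib

set_option autoImplicit false

/-! RR: the combinatorial part: dense sets of positions contain consecutive triples of prescribed shape. -/

open Finset

namespace Pool.Agent.TH662.RR

/-- `β k = 2 K x ⌊(k mod A²)/A⌋ + k` -/
noncomputable def bet (K A : ℕ) (x : ℝ) (k : Fin K) : ℝ := 2 * K * x * (((k % (A * A)) / A : ℕ) : ℝ) + ((k : ℕ) : ℝ)

/-- the block of `k` -/
def blk (K A : ℕ) (k : Fin K) : ℕ := (k % (A * A)) / A

theorem blk_lt (K A : ℕ) (hA : 0 < A) (k : Fin K) : blk K A k < A := by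
  unfold blk
  rw [Nat.div_lt_iff_lt_mul hA]
  exact Nat.mod_lt _ (Nat.mul_pos hA hA)

theorem bet_eq (K A : ℕ) (x : ℝ) (k : Fin K) : bet K A x k = 2 * K * x * (blk K A k : ℝ) + ((k : ℕ) : ℝ) := rfl

theorem bet_lt_of_blk {K A : ℕ} {x : ℝ} (hx : 1 ≤ x) {k l : Fin K} (h : blk K A k < blk K A l) :
    bet K A x k + K * x ≤ bet K A x l := by
  rw [bet_eq, bet_eq]
  have hk : ((k : ℕ) : ℝ) ≤ K := by exact_mod_cast k.2.le
  have hl : (0 : ℝ) ≤ ((l : ℕ) : ℝ) := Nat.cast_nonneg _
  have hK : (0 : ℝ) ≤ K := Nat.cast_nonneg _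
  have h1 : ((blk K A k : ℕ) : ℝ) + 1 ≤ (blk K A l : ℕ) := by exact_mod_cast h
  have h2 : 2 * K * x * (((blk K A k : ℕ) : ℝ) + 1) ≤ 2 * K * x * (blk K A l : ℕ) :=
    mul_le_mul_of_nonneg_left h1 (by positivity)
  have h3 : (K : ℝ) ≤ K * x := le_mul_of_one_le_right hK hx
  nlinarith

theorem bet_lt_iff {K A : ℕ} {x : ℝ} (hx : 1 ≤ x) (hK : 0 < K) {k l : Fin K} :
    bet K A x k < bet K A x l ↔ blk K A k < blk K A l ∨ (blk K A k = blk K A l ∧ k < l) := by
  have hKr : (0 : ℝ) < K := by exact_mod_cast hK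
  have hKx : 0 < K * x := by positivity
  rcases lt_trichotomy (blk K A k) (blk K A l) with h | h | h
  · have := bet_lt_of_blk (x := x) hx h
    constructor
    · intro _; exact Or.inl h
    · intro _; linarith
  · have e1 : bet K A x k < bet K A x l ↔ ((k : ℕ) : ℝ) < ((l : ℕ) : ℝ) := by
      rw [bet_eq, bet_eq, h]
      constructor <;> intro h1 <;> linarith
    rw [e1]
    constructor
    · intro h1
      right
      refine ⟨h, ?_⟩
      rw [Fin.lt_def]; exact_mod_cast h1
    · rintro (h1 | ⟨-, h1⟩)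
      · omega
      · rw [Fin.lt_def] at h1; exact_mod_cast h1
  · have := bet_lt_of_blk (x := x) hx h
    constructor
    · intro h1; linarith
    · rintro (h1 | ⟨h1, -⟩) <;> omega

theorem bet_inj {K A : ℕ} {x : ℝ} (hx : 1 ≤ x) (hK : 0 < K) : Function.Injective (bet K A x) := by
  intro k l hkl
  by_contra hne
  rcases lt_trichotomy (blk K A k) (blk K A l) with h | h | h
  · have := (bet_lt_iff hx hK).2 (Or.inl h : _ ∨ (blk K A k = blk K A l ∧ k < l))
    linarith
  · rcases lt_or_gt_of_ne hne with h1 | h1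
    · have := (bet_lt_iff (x := x) hx hK).2 (Or.inr ⟨h, h1⟩)
      linarith
    · have := (bet_lt_iff (x := x) hx hK).2 (Or.inr ⟨h.symm, h1⟩)
      linarith
  · have := (bet_lt_iff (x := x) hx hK).2 (Or.inl h : _ ∨ (blk K A l = blk K A k ∧ l < k))
    linarith

theorem bet_nonneg {K A : ℕ} {x : ℝ} (hx : 1 ≤ x) (k : Fin K) : 0 ≤ bet K A x k := by
  rw [bet_eq]; positivity

theorem bet_le {K A : ℕ} {x : ℝ} (hx : 1 ≤ x) (hA : 0 < A) (k : Fin K) : bet K A x k ≤ 2 * K * x * A := by
  rw [bet_eq]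
  have hk : ((k : ℕ) : ℝ) ≤ K := by exact_mod_cast k.2.le
  have hK : (0 : ℝ) ≤ K := Nat.cast_nonneg _
  have h1 : ((blk K A k : ℕ) : ℝ) + 1 ≤ A := by exact_mod_cast blk_lt K A hA k
  have h2 : 2 * K * x * (((blk K A k : ℕ) : ℝ) + 1) ≤ 2 * K * x * A :=
    mul_le_mul_of_nonneg_left h1 (by positivity)
  have h3 : (K : ℝ) ≤ K * x := le_mul_of_one_le_right hK hx
  nlinarith

/-- a set of positions with at least `2 A` colours contains a consecutive triple: two in the same block, the third in a
higher block -/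
theorem triple (K A : ℕ) (hA : 0 < A) (x : ℝ) (hx : 1 ≤ x) (hK : 0 < K) (J : Finset (Fin K))
    (hJ : 2 * A ≤ (J.image (fun k : Fin K => (k : ℕ) % (A * A))).card) :
    ∃ u v w : Fin K, u ∈ J ∧ v ∈ J ∧ w ∈ J ∧ blk K A u = blk K A v ∧ u < v ∧ blk K A v < blk K A w ∧
      (∀ k ∈ J, bet K A x k ≤ bet K A x u ∨ bet K A x v ≤ bet K A x k) ∧
      (∀ k ∈ J, bet K A x k ≤ bet K A x v ∨ bet K A x w ≤ bet K A x k) := by
  classical
  -- a block with two elements which is not the last one
  have hblock : ∃ k₁ ∈ J, ∃ k₂ ∈ J, k₁ ≠ k₂ ∧ blk K A k₁ = blk K A k₂ ∧ ∃ w ∈ J, blk K A k₁ < blk K A w := by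
    by_contra hcon
    push Not at hcon
    have hJne : J.Nonempty := by
      rw [Finset.nonempty_iff_ne_empty]
      intro h
      rw [h, image_empty, card_empty] at hJ
      omega
    obtain ⟨w, hw, hwmax⟩ := Finset.exists_max_image J (blk K A) hJne
    -- split the image
    have h1 : (J.image (fun k : Fin K => (k : ℕ) % (A * A))) ⊆
        ((J.filter (fun k => blk K A k < blk K A w)).image (fun k : Fin K => (k : ℕ) % (A * A))) ∪
        ((range A).image (fun i => blk K A w * A + i)) := by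
      intro d hd
      rw [mem_image] at hd
      obtain ⟨k, hk, rfl⟩ := hd
      rw [mem_union]
      rcases (hwmax k hk).lt_or_eq with h | h
      · left
        rw [mem_image]
        exact ⟨k, by rw [mem_filter]; exact ⟨hk, h⟩, rfl⟩
      · right
        rw [mem_image]
        refine ⟨(k : ℕ) % (A * A) % A, by rw [mem_range]; exact Nat.mod_lt _ hA, ?_⟩
        rw [← h]
        unfold blk
        rw [mul_comm]
        exact Nat.div_add_mod _ _
    have h2 : (J.filter (fun k => blk K A k < blk K A w)).card ≤ blk K A w := by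
      refine le_trans ?_ (Finset.card_range (blk K A w)).le
      apply Finset.card_le_card_of_injOn (blk K A)
      · intro k hk
        simp only [coe_filter, Set.mem_ofPred_eq] at hk
        simp only [coe_range, Set.mem_Iio]
        exact hk.2
      · intro k hk l hl hkl
        simp only [coe_filter, Set.mem_ofPred_eq] at hk hl
        by_contra hne
        have := hcon k hk.1 l hl.1 hne hkl w hw
        omega
    have h3 := blk_lt K A hA w
    have h4 := Finset.card_le_card h1
    have h5 := Finset.card_union_le ((J.filter (fun k => blk K A k < blk K A w)).image (fun k : Fin K => (k : ℕ) % (A * A)))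
        ((range A).image (fun i => blk K A w * A + i))
    have h6 : ((J.filter (fun k => blk K A k < blk K A w)).image (fun k : Fin K => (k : ℕ) % (A * A))).card ≤
      (J.filter (fun k => blk K A k < blk K A w)).card := Finset.card_image_le
    have h7 : ((range A).image (fun i => blk K A w * A + i)).card ≤ A := by
      refine Finset.card_image_le.trans ?_
      rw [card_range]
    omega
  obtain ⟨k₁, hk₁, k₂, hk₂, hne, hb12, w0, hw0, hbw⟩ := hblock
  set B := blk K A k₁ with hB
  -- v
  obtain ⟨v, hv, hvmax⟩ := Finset.exists_max_image (J.filter (fun k => blk K A k ≤ B)) (bet K A x)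
    ⟨k₁, by rw [mem_filter]; exact ⟨hk₁, le_rfl⟩⟩
  obtain ⟨w, hw, hwmin⟩ := Finset.exists_min_image (J.filter (fun k => B < blk K A k)) (bet K A x)
    ⟨w0, by rw [mem_filter]; exact ⟨hw0, hbw⟩⟩
  rw [mem_filter] at hv hw
  have hv1 : bet K A x k₁ ≤ bet K A x v := hvmax k₁ (by rw [mem_filter]; exact ⟨hk₁, le_rfl⟩)
  have hv2 : bet K A x k₂ ≤ bet K A x v := hvmax k₂ (by rw [mem_filter]; exact ⟨hk₂, by rw [← hb12]⟩)
  have hbv : blk K A v = B := by
    rcases hv.2.lt_or_eq with h | h
    · exfalso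
      have := (bet_lt_iff (x := x) hx hK).2 (Or.inl h : _ ∨ (blk K A v = blk K A k₁ ∧ v < k₁))
      linarith
    · exact h
  -- another element of the block, below v
  obtain ⟨l, hl, hlb, hlv⟩ : ∃ l ∈ J, blk K A l = B ∧ bet K A x l < bet K A x v := by
    by_cases h : k₁ = v
    · refine ⟨k₂, hk₂, hb12.symm, lt_of_le_of_ne hv2 ?_⟩
      intro he
      exact hne (h.trans (bet_inj hx hK he).symm)
    · refine ⟨k₁, hk₁, rfl, lt_of_le_of_ne hv1 ?_⟩
      intro he
      exact h (bet_inj hx hK he)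
  obtain ⟨u, hu, humax⟩ := Finset.exists_max_image (J.filter (fun k => bet K A x k < bet K A x v)) (bet K A x)
    ⟨l, by rw [mem_filter]; exact ⟨hl, hlv⟩⟩
  rw [mem_filter] at hu
  have hul : bet K A x l ≤ bet K A x u := humax l (by rw [mem_filter]; exact ⟨hl, hlv⟩)
  have hbu : blk K A u = B := by
    rcases lt_trichotomy (blk K A u) B with h | h | h
    · exfalso
      have := (bet_lt_iff (x := x) hx hK).2 (Or.inl (by rw [hlb]; exact h) : _ ∨ (blk K A u = blk K A l ∧ u < l))
      linarith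
    · exact h
    · exfalso
      have := (bet_lt_iff (x := x) hx hK).2 (Or.inl (by rw [hbv]; exact h) : _ ∨ (blk K A v = blk K A u ∧ v < u))
      linarith
  have huv : u < v := by
    rcases (bet_lt_iff hx hK).1 hu.2 with h | h
    · omega
    · exact h.2
  refine ⟨u, v, w, hu.1, hv.1, hw.1, by rw [hbu, hbv], huv, by rw [hbv]; exact hw.2, ?_, ?_⟩
  · intro k hk
    by_cases h : bet K A x k < bet K A x v
    · exact Or.inl (humax k (by rw [mem_filter]; exact ⟨hk, h⟩))
    · exact Or.inr (not_lt.1 h)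
  · intro k hk
    by_cases h : blk K A k ≤ B
    · exact Or.inl (hvmax k (by rw [mem_filter]; exact ⟨hk, h⟩))
    · exact Or.inr (hwmin k (by rw [mem_filter]; exact ⟨hk, not_le.1 h⟩))

end Pool.Agent.TH662.RR
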