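import Pool.Agent.H362R2.RQ.Place

set_option autoImplicit false

/-! RR: limit configurations of the primes in record windows (coloured version). -/

open Finset Filter Topology

namespace Pool.Agent.TH662.RR

open Pool.Agent.H362R2.RQ
open Pool.Agent.H378R2 (yy)
open Pool.Agent.H256R2.SC (ff)
open Pool.Agent.H312R2.RG.C3 (ff_tendsto ff_lower ff_upper ff_small ff_slow count_next)

theorem exists_min_pos {ι : Type} [Finite ι] (ε : ι → ℝ) (h : ∀ i, 0 < ε i) :
    ∃ η : ℝ, 0 < η ∧ ∀ i, η ≤ ε i := by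
  cases isEmpty_or_nonempty ι with
  | inl hι => exact ⟨1, one_pos, fun i => isEmptyElim i⟩
  | inr hι =>
    obtain ⟨i0, hi0⟩ := Finite.exists_min ε
    exact ⟨ε i0, h i0, hi0⟩

/-- windows with positions near `c ff X (1 + γ k)`; the primes of the window are those with `k ∈ J`, and `J` meets at least
`η M` of the `M` colour classes -/
theorem core (h : StRQ) : ∃ η : ℝ, 0 < η ∧ ∀ (M : ℕ) (hM : 0 < M), ∃ K : ℕ, M ≤ K ∧ ∃ c : ℝ, 0 < c ∧
    ∀ q a : ℕ, Squarefree q → a.Coprime q → ∀ γ : Fin K → ℝ, Function.Injective γ → (∀ k, 0 ≤ γ k ∧ γ k ≤ 1) →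
    ∀ ε : ℝ, 0 < ε → ∀ᶠ X : ℝ in atTop, ∃ (n : ℕ) (t : Fin K → ℕ) (J : Finset (Fin K)),
      X < n ∧ (n : ℝ) ≤ 3 * X ∧ (∀ k l, γ k < γ l → t k < t l) ∧ (∀ k, n + t k ≡ a [MOD q]) ∧
      (∀ k, |(t k : ℝ) / (c * ff X) - (1 + γ k)| ≤ ε) ∧ (∀ k, (t k : ℝ) ≤ 3 * (c * ff X)) ∧
      (∀ k ∈ J, (n + t k).Prime) ∧
      (∀ s : ℕ, (s : ℝ) ≤ 3 * (c * ff X) → (n + s).Prime → ∃ k ∈ J, s = t k) ∧
      η * M ≤ (J.image (cmod K M hM)).card := by
  classical
  obtain ⟨η, hη, hmain⟩ := h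
  refine ⟨η, hη, ?_⟩
  intro M hM
  obtain ⟨K, hMK, c0, hc0, hX⟩ := hmain M hM
  have hK0 : 0 < K := by omega
  have hKr : (0 : ℝ) < K := by exact_mod_cast hK0
  obtain ⟨c, hc⟩ : ∃ c : ℝ, c = c0 / 3 := ⟨_, rfl⟩
  have hcpos : 0 < c := by rw [hc]; positivity
  have hcc : 3 * c = c0 := by rw [hc]; ring
  refine ⟨K, hMK, c, hcpos, ?_⟩
  intro q a hqsf haq γ hγinj hγ ε hε
  have hq0 : 0 < q := Nat.pos_of_ne_zero hqsf.ne_zero
  obtain ⟨X1, hX1⟩ := hX q
  obtain ⟨g, hg0, hg⟩ := exists_min_pos (fun p : Fin K × Fin K => if γ p.1 < γ p.2 then γ p.2 - γ p.1 else 1)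
    (fun p => by
      split_ifs with h1
      · linarith
      · exact one_pos)
  obtain ⟨e, he⟩ : ∃ e : ℝ, e = min (min ε 1) g := ⟨_, rfl⟩
  have hepos : 0 < e := by rw [he]; positivity
  have heε : e ≤ ε := by rw [he]; exact (min_le_left _ _).trans (min_le_left _ _)
  have he1 : e ≤ 1 := by rw [he]; exact (min_le_left _ _).trans (min_le_right _ _)
  have heg : e ≤ g := by rw [he]; exact min_le_right _ _
  have hY := exists_prime_mod q hq0 a haq (e / 2) (by positivity)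
  have htend : Tendsto (fun X : ℝ => c * ff X) atTop atTop := ff_tendsto.const_mul_atTop hcpos
  have hllt : Tendsto (fun X : ℝ => Real.log (Real.log X)) atTop atTop :=
    Real.tendsto_log_atTop.comp Real.tendsto_log_atTop
  have hY2 : ∀ k : Fin K, ∀ᶠ X : ℝ in atTop, ∃ p : ℕ, p.Prime ∧ p ≡ a [MOD q] ∧ c * ff X * (1 + γ k) < p ∧
      (p : ℝ) ≤ (1 + e / 2) * (c * ff X * (1 + γ k)) := by
    intro k
    have h1 : Tendsto (fun X : ℝ => c * ff X * (1 + γ k)) atTop atTop :=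
      htend.atTop_mul_const (by linarith [(hγ k).1])
    exact h1.eventually hY
  filter_upwards [eventually_ge_atTop X1, eventually_all.2 hY2, ff_lower, hllt.eventually_ge_atTop (1 / c),
    Real.tendsto_log_atTop.eventually_ge_atTop 1, eventually_gt_atTop (0 : ℝ), ff_tendsto.eventually_gt_atTop 0]
    with X hXX1 hpr hfl hll hl1 hXpos hffpos
  set H := c * ff X with hH
  have hHpos : 0 < H := by positivity
  choose t htp hta htl htu using hpr
  have htu2 : ∀ k, (t k : ℝ) ≤ H * (1 + γ k + e) := by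
    intro k
    refine (htu k).trans ?_
    have h1 := (hγ k).1
    have h2 := (hγ k).2
    have h3 : H * (1 + γ k + e) - (1 + e / 2) * (H * (1 + γ k)) = H * (e / 2) * (1 - γ k) := by ring
    have h4 : 0 ≤ H * (e / 2) * (1 - γ k) := mul_nonneg (by positivity) (by linarith)
    linarith
  have htmono : ∀ k l, γ k < γ l → t k < t l := by
    intro k l hkl
    have h1 := hg (k, l)
    simp only [if_pos hkl] at h1
    have h2 : H * (1 + γ k + e) ≤ H * (1 + γ l) := mul_le_mul_of_nonneg_left (by linarith) hHpos.le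
    have h3 : (t k : ℝ) < t l := ((htu2 k).trans h2).trans_lt (htl l)
    exact_mod_cast h3
  have htinj : Function.Injective t := by
    intro k l hkl
    by_contra hne
    have h1 : γ k ≠ γ l := fun h => hne (hγinj h)
    rcases lt_or_gt_of_ne h1 with h2 | h2
    · have := htmono k l h2; omega
    · have := htmono l k h2; omega
  have hyy : (yy X : ℝ) < H := by
    have h1 : (yy X : ℝ) ≤ Real.log X / 1000 := Nat.floor_le (by positivity)
    have h2 : Real.log X ≤ H := by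
      rw [div_le_iff₀ hcpos] at hll
      calc Real.log X = Real.log X * 1 := (mul_one _).symm
        _ ≤ Real.log X * (Real.log (Real.log X) * c) := mul_le_mul_of_nonneg_left hll (by linarith)
        _ = c * (Real.log X * Real.log (Real.log X)) := by ring
        _ ≤ c * ff X := mul_le_mul_of_nonneg_left hfl hcpos.le
    linarith
  have ht3 : ∀ k, (t k : ℝ) ≤ 3 * H := by
    intro k
    refine (htu2 k).trans ?_
    have h1 : H * (1 + γ k + e) ≤ H * 3 := mul_le_mul_of_nonneg_left (by linarith [(hγ k).2]) hHpos.le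
    linarith
  have h3H : c0 * ff X = 3 * H := by rw [hH, ← hcc]; ring
  obtain ⟨n, hn1, hn2, -, ⟨D, hD1, hD2⟩, hn4, hn5⟩ := hX1 X hXX1 t htinj (fun k => ⟨htp k, by
      have h1 : H * 1 ≤ H * (1 + γ k) := mul_le_mul_of_nonneg_left (by linarith [(hγ k).1]) hHpos.le
      have h2 : (yy X : ℝ) < t k := by linarith [htl k]
      exact_mod_cast h2, by rw [h3H]; exact ht3 k⟩) (cmod K M hM) (fib_cmod K M hM hMK) ∅ (by
      rw [Finset.card_empty, Nat.cast_zero]; exact Real.rpow_nonneg hXpos.le _)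
  refine ⟨n, t, univ.filter (fun k => (n + t k).Prime), hn1, hn2, htmono, ?_, ?_, ht3, ?_, ?_, ?_⟩
  · intro k
    have hqn : q ∣ n := dvd_of_primes q n hqsf fun p hp hpq => hn5 p hp (Nat.le_of_dvd hq0 hpq)
    have h1 : n ≡ 0 [MOD q] := (Nat.modEq_zero_iff_dvd).2 hqn
    have h2 := h1.add (hta k)
    rwa [zero_add] at h2
  · intro k
    have e1 : (t k : ℝ) / H - (1 + γ k) = (t k - H * (1 + γ k)) / H := by field_simp
    rw [e1, abs_div, abs_of_pos hHpos, div_le_iff₀ hHpos, abs_le]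
    have h1 := htu2 k
    have h2 := htl k
    have h3 : e * H ≤ ε * H := mul_le_mul_of_nonneg_right heε hHpos.le
    have h4 : H * (1 + γ k + e) = H * (1 + γ k) + e * H := by ring
    have h5 : 0 ≤ ε * H := by positivity
    constructor <;> linarith
  · intro k hk
    exact (mem_filter.1 hk).2
  · intro s hs hp
    obtain ⟨j, hj⟩ := hn4 s (by rw [h3H]; exact hs) hp
    refine ⟨j, ?_, hj⟩
    rw [mem_filter]
    refine ⟨mem_univ _, ?_⟩
    rw [← hj]; exact hp
  · refine hD1.trans ?_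
    have h1 : D.card ≤ ((univ.filter (fun k => (n + t k).Prime)).image (cmod K M hM)).card := by
      apply Finset.card_le_card
      intro d hd
      obtain ⟨j, hj1, hj2⟩ := hD2 d hd
      rw [mem_image]
      exact ⟨j, by rw [mem_filter]; exact ⟨mem_univ _, hj2⟩, hj1⟩
    exact_mod_cast h1

/-- consecutive primes among the shifts `n + t k`, `k ∈ J` -/
theorem chain_idx {K m : ℕ} (γ : Fin K → ℝ) (t : Fin K → ℕ) (ht : ∀ k l, γ k < γ l → t k < t l)
    (n : ℕ) (B : ℝ) (J : Finset (Fin K)) (hJ : ∀ k ∈ J, (n + t k).Prime) (htB : ∀ k, (t k : ℝ) ≤ B)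
    (hs : ∀ s : ℕ, (s : ℝ) ≤ B → (n + s).Prime → ∃ k ∈ J, s = t k)
    (κ : Fin (m + 1) → Fin K) (hκJ : ∀ i, κ i ∈ J)
    (hκ1 : ∀ i : Fin m, γ (κ i.castSucc) < γ (κ i.succ))
    (hκ2 : ∀ i : Fin m, ∀ k ∈ J, γ k ≤ γ (κ i.castSucc) ∨ γ (κ i.succ) ≤ γ k)
    (hinj : Function.Injective γ) :
    ∃ n₀ : ℕ, ∀ i : Fin (m + 1), Nat.nth Nat.Prime (n₀ + i) = n + t (κ i) := by
  refine ⟨Nat.count Nat.Prime (n + t (κ 0)), ?_⟩
  have key : ∀ i : ℕ, (hi : i < m + 1) →
      Nat.count Nat.Prime (n + t (κ ⟨i, hi⟩)) = Nat.count Nat.Prime (n + t (κ 0)) + i := by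
    intro i
    induction i with
    | zero => intro hi; rfl
    | succ i ih =>
      intro hi
      have h1 : i < m + 1 := by omega
      have him : i < m := by omega
      rw [← add_assoc, ← ih h1]
      have hlt := hκ1 ⟨i, him⟩
      have hno := hκ2 ⟨i, him⟩
      have e1 : (⟨i, him⟩ : Fin m).castSucc = ⟨i, h1⟩ := rfl
      have e2 : (⟨i, him⟩ : Fin m).succ = ⟨i + 1, hi⟩ := rfl
      rw [e1, e2] at hlt
      rw [e1, e2] at hno
      apply count_next (hJ _ (hκJ _))
      · exact Nat.add_lt_add_left (ht _ _ hlt) n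
      · intro k hk1 hk2 hkp
        obtain ⟨s, rfl⟩ : ∃ s, k = n + s := by
          have hk0 : n ≤ k := (Nat.le_add_right _ _).trans hk1.le
          exact ⟨k - n, by omega⟩
        have h3 : s < t (κ ⟨i + 1, hi⟩) := Nat.lt_of_add_lt_add_left hk2
        have h4 : t (κ ⟨i, h1⟩) < s := Nat.lt_of_add_lt_add_left hk1
        obtain ⟨l, hl, rfl⟩ := hs s (by
          have : (s : ℝ) ≤ t (κ ⟨i + 1, hi⟩) := by exact_mod_cast h3.le
          exact this.trans (htB _)) hkp
        rcases hno l hl with h5 | h5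
        · rcases h5.lt_or_eq with h6 | h6
          · have := ht _ _ h6; omega
          · rw [hinj h6] at h4; omega
        · rcases h5.lt_or_eq with h6 | h6
          · have := ht _ _ h6; omega
          · rw [hinj h6] at h3; omega
  intro i
  have h1 := key i.1 i.2
  have h2 : (⟨i.1, i.2⟩ : Fin (m + 1)) = i := rfl
  rw [h2] at h1
  rw [← h1]
  exact Nat.nth_count (hJ _ (hκJ _))

/-- the limit points, along the blocks of `m + 1` consecutive primes in the class `a (mod q)`, of the vectors of the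
`m` gaps divided by `ff` -/
def Lim (m q a : ℕ) : Set (Fin m → ℝ) :=
  {v | ∀ ε : ℝ, 0 < ε → ∃ᶠ n : ℕ in atTop,
    (∀ i : Fin (m + 1), Nat.nth Nat.Prime (n + i) ≡ a [MOD q]) ∧
    ∀ i : Fin m, |((Nat.nth Nat.Prime (n + i + 1) : ℝ) - Nat.nth Nat.Prime (n + i)) /
      ff (Nat.nth Nat.Prime n) - v i| < ε}

/-- if every set `J` of positions that meets `η M` colour classes contains a consecutive chain from `𝒯` then some chain of `𝒯`
gives a limit point -/
theorem sel (h : StRQ) (m : ℕ) : ∃ η : ℝ, 0 < η ∧ ∀ (M : ℕ) (hM : 0 < M), ∃ K : ℕ, M ≤ K ∧ ∃ c : ℝ, 0 < c ∧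
    ∀ q a : ℕ, Squarefree q → a.Coprime q → ∀ γ : Fin K → ℝ, Function.Injective γ → (∀ k, 0 ≤ γ k ∧ γ k ≤ 1) →
    ∀ T : Set (Fin (m + 1) → Fin K),
    (∀ J : Finset (Fin K), η * M ≤ (J.image (cmod K M hM)).card → ∃ κ ∈ T, (∀ i, κ i ∈ J) ∧
      (∀ i : Fin m, γ (κ i.castSucc) < γ (κ i.succ)) ∧
      ∀ i : Fin m, ∀ k ∈ J, γ k ≤ γ (κ i.castSucc) ∨ γ (κ i.succ) ≤ γ k) →
    ∃ κ ∈ T, (fun i : Fin m => c * (γ (κ i.succ) - γ (κ i.castSucc))) ∈ Lim m q a := by
  classical
  obtain ⟨η, hη, hcore⟩ := core h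
  refine ⟨η, hη, ?_⟩
  intro M hM
  obtain ⟨K, hMK, c, hc, hw⟩ := hcore M hM
  refine ⟨K, hMK, c, hc, ?_⟩
  intro q a hq ha γ hγinj hγ T hT
  by_contra hcon
  push Not at hcon
  have h1 : ∀ κ : Fin (m + 1) → Fin K, ∃ ε : ℝ, 0 < ε ∧ (κ ∈ T → ∀ᶠ n : ℕ in atTop,
      ¬ ((∀ i : Fin (m + 1), Nat.nth Nat.Prime (n + i) ≡ a [MOD q]) ∧
      ∀ i : Fin m, |((Nat.nth Nat.Prime (n + i + 1) : ℝ) - Nat.nth Nat.Prime (n + i)) /
        ff (Nat.nth Nat.Prime n) - c * (γ (κ i.succ) - γ (κ i.castSucc))| < ε)) := by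
    intro κ
    by_cases hκ : κ ∈ T
    · have h2 := hcon κ hκ
      simp only [Lim, Set.mem_ofPred_eq, not_forall, not_frequently] at h2
      obtain ⟨ε, hε, h3⟩ := h2
      exact ⟨ε, hε, fun _ => h3⟩
    · exact ⟨1, one_pos, fun h => absurd h hκ⟩
  choose εf hεf hev using h1
  obtain ⟨ε, hε, hεle⟩ := exists_min_pos εf hεf
  have hev2 : ∀ᶠ n : ℕ in atTop, ∀ κ : Fin (m + 1) → Fin K, κ ∈ T →
      ¬ ((∀ i : Fin (m + 1), Nat.nth Nat.Prime (n + i) ≡ a [MOD q]) ∧
      ∀ i : Fin m, |((Nat.nth Nat.Prime (n + i + 1) : ℝ) - Nat.nth Nat.Prime (n + i)) /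
        ff (Nat.nth Nat.Prime n) - c * (γ (κ i.succ) - γ (κ i.castSucc))| < ε) := by
    rw [eventually_all]
    intro κ
    by_cases hκ : κ ∈ T
    · filter_upwards [hev κ hκ] with n hn _ hn2
      exact hn ⟨hn2.1, fun i => (hn2.2 i).trans_le (hεle κ)⟩
    · exact Eventually.of_forall fun n hn => absurd hn hκ
  obtain ⟨N₀, hN₀⟩ := eventually_atTop.1 hev2
  set δ : ℝ := min 1 (ε / (8 * c)) with hδ
  have hδ0 : 0 < δ := by positivity
  have hδ1 : δ ≤ 1 := min_le_left _ _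
  have hδε : δ * (8 * c) ≤ ε := by
    have := min_le_right 1 (ε / (8 * c))
    rw [← hδ, le_div_iff₀ (by positivity)] at this
    exact this
  obtain ⟨X, ⟨n, t, J, hn1, hn2, htm, hta, htc, htB, hJp, hJs, hJc⟩, hXsl, hXN, hX0, hXf, hsm⟩ :=
    ((hw q a hq ha γ hγinj hγ δ hδ0).and
    ((ff_slow δ hδ0).and ((eventually_ge_atTop ((Nat.nth Nat.Prime N₀ : ℕ) : ℝ)).and
    ((eventually_gt_atTop 0).and ((ff_tendsto.eventually_gt_atTop 0).and
      (ff_small (3 * c) (by positivity))))))).exists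
  obtain ⟨κ, hκT, hκJ, hκ1, hκ2⟩ := hT J hJc
  obtain ⟨n₀, hn₀⟩ := chain_idx γ t htm n (3 * (c * ff X)) J hJp htB hJs κ hκJ hκ1 hκ2 hγinj
  have hp0 : Nat.nth Nat.Prime n₀ = n + t (κ 0) := by
    have := hn₀ 0
    simpa using this
  have hlow : X < (Nat.nth Nat.Prime n₀ : ℕ) := by
    rw [hp0]; push_cast
    have : (0 : ℝ) ≤ t (κ 0) := Nat.cast_nonneg _
    linarith
  have hup : ((Nat.nth Nat.Prime n₀ : ℕ) : ℝ) ≤ 4 * X := by
    rw [hp0]; push_cast
    have := htB (κ 0)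
    linarith
  have hNn : N₀ ≤ n₀ := by
    by_contra hlt
    push Not at hlt
    have h2 : Nat.nth Nat.Prime n₀ < Nat.nth Nat.Prime N₀ :=
      Nat.nth_strictMono Nat.infinite_setOfPred_prime hlt
    have h3 : ((Nat.nth Nat.Prime n₀ : ℕ) : ℝ) < (Nat.nth Nat.Prime N₀ : ℕ) := by exact_mod_cast h2
    linarith
  refine hN₀ n₀ hNn κ hκT ⟨fun i => ?_, fun i => ?_⟩
  · rw [hn₀ i]; exact hta _
  · have h5 := (hXsl _ hlow.le hup).le
    have e3 : Nat.nth Nat.Prime (n₀ + i + 1) = n + t (κ i.succ) := by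
      have := hn₀ i.succ
      rw [Fin.val_succ, ← add_assoc] at this
      exact this
    have e4 : Nat.nth Nat.Prime (n₀ + i) = n + t (κ i.castSucc) := by
      have := hn₀ i.castSucc
      rw [Fin.val_castSucc] at this
      exact this
    set g : ℝ := (Nat.nth Nat.Prime (n₀ + i + 1) : ℝ) - Nat.nth Nat.Prime (n₀ + i) with hg
    have hgt : g = (t (κ i.succ) : ℝ) - t (κ i.castSucc) := by
      rw [hg, e3, e4]; push_cast; ring
    set F : ℝ := ff X with hF
    set P : ℝ := ff ((Nat.nth Nat.Prime n₀ : ℕ) : ℝ) with hP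
    set u := γ (κ i.succ) with hu
    set v := γ (κ i.castSucc) with hv
    have hu1 := hγ (κ i.succ)
    have hv1 := hγ (κ i.castSucc)
    have q1 : |g / F - c * (u - v)| ≤ 2 * c * δ := by
      have e1 : g / F - c * (u - v) = c * (((t (κ i.succ) : ℝ) / (c * F) - (1 + u)) -
          ((t (κ i.castSucc) : ℝ) / (c * F) - (1 + v))) := by
        rw [hgt]; field_simp; ring
      rw [e1, abs_mul, abs_of_pos hc]
      have h6 := htc (κ i.succ)
      have h7 := htc (κ i.castSucc)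
      calc c * |((t (κ i.succ) : ℝ) / (c * F) - (1 + u)) - ((t (κ i.castSucc) : ℝ) / (c * F) - (1 + v))|
          ≤ c * (δ + δ) := by
            apply mul_le_mul_of_nonneg_left _ hc.le
            exact (abs_sub _ _).trans (add_le_add h6 h7)
        _ = 2 * c * δ := by ring
    have q2 : |g / F| ≤ c + 2 * c * δ := by
      have e1 : |c * (u - v)| ≤ c := by
        rw [abs_mul, abs_of_pos hc]
        have : |u - v| ≤ 1 := by
          rw [abs_le]; constructor <;> linarith [hu1.1, hu1.2, hv1.1, hv1.2]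
        calc c * |u - v| ≤ c * 1 := mul_le_mul_of_nonneg_left this hc.le
          _ = c := mul_one c
      calc |g / F| = |(g / F - c * (u - v)) + c * (u - v)| := by ring_nf
        _ ≤ |g / F - c * (u - v)| + |c * (u - v)| := abs_add_le _ _
        _ ≤ _ := by linarith
    have hP0 : P ≠ 0 := by
      intro hP0
      have h6 := hXsl _ hlow.le hup
      change |F / P - 1| < δ at h6
      rw [hP0, div_zero, zero_sub, abs_neg, abs_one] at h6
      linarith
    have e2 : g / P - c * (u - v) = (g / F - c * (u - v)) + (g / F) * (F / P - 1) := by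
      field_simp
      ring
    rw [e2]
    calc |(g / F - c * (u - v)) + (g / F) * (F / P - 1)|
        ≤ |g / F - c * (u - v)| + |(g / F) * (F / P - 1)| := abs_add_le _ _
      _ = |g / F - c * (u - v)| + |g / F| * |F / P - 1| := by rw [abs_mul]
      _ ≤ 2 * c * δ + (c + 2 * c * δ) * δ := by
          refine add_le_add q1 (mul_le_mul q2 h5 (abs_nonneg _) (by positivity))
      _ < ε := by
          have h8 : c * δ * δ ≤ c * δ * 1 := mul_le_mul_of_nonneg_left hδ1 (by positivity)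
          have h9 : 0 < c * δ := by positivity
          nlinarith

end Pool.Agent.TH662.RR
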